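import Pool.Agent.Work.MP_223b32_es.Interface

/-! # FEC: the functional equation by Gauss sums, twisted form (helper23) -/

set_option autoImplicit false
set_option linter.unusedSectionVars false
set_option linter.unusedVariables false

namespace Pool.Agent.Work.ES.FECb

open Finset Polynomial
open Pool.Agent.Work.TC (mon)

section

variable {F R : Type} [Field F] [CommRing R] [Algebra F R]

/-- the combination of the first powers -/
def TT (a : R) (m : ℕ) (u : Fin m → F) : R :=
  ∑ l : Fin m, algebraMap F R (u l) * a ^ (l : ℕ)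

lemma TT_snoc (a : R) (i : ℕ) (w : F) (c : Fin i → F) :
    TT a (i + 1) (Fin.snoc c w : Fin (i + 1) → F) =
      TT a i c + algebraMap F R w * a ^ i := by
  unfold TT
  rw [Fin.sum_univ_castSucc]
  simp

lemma TT_smul (a : R) (i : ℕ) (t : F) (c : Fin i → F) :
    TT a i (fun l => t * c l) = algebraMap F R t * TT a i c := by
  unfold TT
  rw [Finset.mul_sum]
  refine Finset.sum_congr rfl fun l _ => ?_
  rw [map_mul, mul_assoc]

lemma lam_TT (lam : R →ₗ[F] F) (a : R) {n : ℕ} (h0 : ∀ m < n, lam (a ^ m) = 0)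
    (h1 : lam (a ^ n) = 1) {i j : ℕ} (hij : i + j ≤ n) (u : Fin (i + 1) → F) :
    lam (TT a (i + 1) u * a ^ j) = if i + j = n then u (Fin.last i) else 0 := by
  unfold TT
  rw [Finset.sum_mul, map_sum, Fin.sum_univ_castSucc]
  have e : ∀ l : Fin (i + 1), lam (algebraMap F R (u l) * a ^ (l : ℕ) * a ^ j) =
      u l * lam (a ^ ((l : ℕ) + j)) := by
    intro l
    rw [mul_assoc, ← pow_add, ← Algebra.smul_def, map_smul, smul_eq_mul]
  have h2 : ∀ l : Fin i, lam (algebraMap F R (u l.castSucc) * a ^ ((l.castSucc : Fin (i + 1)) : ℕ)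
      * a ^ j) = 0 := by
    intro l
    rw [e, h0, mul_zero]
    have := l.2
    simp only [Fin.val_castSucc]
    omega
  rw [Finset.sum_congr rfl fun l _ => h2 l, Finset.sum_const_zero, zero_add, e]
  simp only [Fin.val_last]
  split_ifs with h
  · rw [h, h1, mul_one]
  · rw [h0 _ (lt_of_le_of_ne hij h), mul_zero]

lemma exists_lam [FiniteDimensional F R] (a : R) {n : ℕ} (hn : Module.finrank F R = n + 1)
    (hli : LinearIndependent F fun i : Fin (n + 1) => a ^ (i : ℕ)) :
    ∃ lam : R →ₗ[F] F, (∀ m < n, lam (a ^ m) = 0) ∧ lam (a ^ n) = 1 ∧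
      (∀ y : R, ∃ w : Fin (n + 1) → F, y = TT a (n + 1) w) ∧
      (∀ i ≤ n, Function.Injective (TT (F := F) a (i + 1))) := by
  let B := basisOfLinearIndependentOfCardEqFinrank hli (by simp [hn])
  have hB : ∀ l : Fin (n + 1), B l = a ^ (l : ℕ) := fun l => by
    simp [B]
  refine ⟨B.coord (Fin.last n), ?_, ?_, ?_, ?_⟩
  · intro m hm
    have h := hB ⟨m, by omega⟩
    simp only at h
    rw [← h, Module.Basis.coord_apply, Module.Basis.repr_self, Finsupp.single_apply, if_neg]
    intro h'
    rw [Fin.ext_iff] at h'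
    simp at h'
    omega
  · have h := hB (Fin.last n)
    simp only [Fin.val_last] at h
    rw [← h, Module.Basis.coord_apply, Module.Basis.repr_self, Finsupp.single_apply, if_pos rfl]
  · intro y
    refine ⟨fun l => B.repr y l, ?_⟩
    have h := B.sum_repr y
    rw [← h]
    unfold TT
    refine Finset.sum_congr rfl fun l _ => ?_
    rw [Algebra.smul_def, hB, h]
  · intro i hi u v huv
    have hli2 : LinearIndependent F fun l : Fin (i + 1) => a ^ (l : ℕ) := by
      have := hli.comp (fun l : Fin (i + 1) => (⟨l, by omega⟩ : Fin (n + 1))) (by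
        intro x y h
        simpa [Fin.ext_iff] using h)
      exact this
    rw [Fintype.linearIndependent_iff] at hli2
    have h := hli2 (fun l => u l - v l) (by
      have : ∑ l : Fin (i + 1), (u l - v l) • a ^ (l : ℕ) = TT a (i + 1) u - TT a (i + 1) v := by
        unfold TT
        rw [← Finset.sum_sub_distrib]
        refine Finset.sum_congr rfl fun l _ => ?_
        rw [Algebra.smul_def, map_sub, sub_mul]
      rw [this, huv, sub_self])
    funext l
    exact sub_eq_zero.1 (h l)

lemma ann (lam : R →ₗ[F] F) (a : R) {n : ℕ} (h0 : ∀ m < n, lam (a ^ m) = 0)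
    (h1 : lam (a ^ n) = 1) (hy : ∀ y : R, ∃ w : Fin (n + 1) → F, y = TT a (n + 1) w)
    {i j : ℕ} (hij : i + j = n) (y : R) :
    (∀ k : Fin j, lam (y * a ^ (k : ℕ)) = 0) ↔ ∃ u : Fin (i + 1) → F, TT a (i + 1) u = y := by
  constructor
  · intro h
    obtain ⟨w, rfl⟩ := hy y
    have key : ∀ t ≤ j, ∀ l : Fin (n + 1), n + 1 ≤ (l : ℕ) + t → w l = 0 := by
      intro t
      induction t with
      | zero =>
        intro _ l hl
        have := l.2
        omega
      | succ t ih =>
        intro ht l hl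
        by_cases hlt : n + 1 ≤ (l : ℕ) + t
        · exact ih (by omega) l hlt
        · have hlt' : (l : ℕ) + t = n := by omega
          have h2 := h ⟨t, ht⟩
          simp only at h2
          unfold TT at h2
          rw [Finset.sum_mul, map_sum] at h2
          have e : ∀ l' : Fin (n + 1), lam (algebraMap F R (w l') * a ^ (l' : ℕ) * a ^ t) =
              if l' = l then w l else 0 := by
            intro l'
            rw [mul_assoc, ← pow_add, ← Algebra.smul_def, map_smul, smul_eq_mul]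
            rcases lt_trichotomy (l' : ℕ) (l : ℕ) with hc | hc | hc
            · rw [h0 _ (by omega), mul_zero, if_neg]
              rintro rfl
              omega
            · have : l' = l := Fin.ext hc
              subst this
              rw [if_pos rfl, hlt', h1, mul_one]
            · rw [ih (by omega) l' (by omega), zero_mul, if_neg]
              rintro rfl
              omega
          rw [Finset.sum_congr rfl fun l' _ => e l', Finset.sum_ite_eq' Finset.univ l] at h2
          simpa using h2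
    refine ⟨fun l => w ⟨l, by omega⟩, ?_⟩
    unfold TT
    rw [← Finset.sum_subset (Finset.subset_univ
      (Finset.univ.image fun l : Fin (i + 1) => (⟨l, by omega⟩ : Fin (n + 1)))),
      Finset.sum_image]
    · intro x _ y _ h
      simpa [Fin.ext_iff] using h
    · intro l _ hl
      rw [key j le_rfl l, map_zero, zero_mul]
      by_contra hcon
      refine hl (Finset.mem_image.2 ⟨⟨l, by omega⟩, Finset.mem_univ _, rfl⟩)
  · rintro ⟨u, rfl⟩ k
    have := k.2
    rw [lam_TT lam a h0 h1 (by omega) u, if_neg (by omega)]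

end

section

variable {F K : Type} [Field F] [Fintype F] [DecidableEq F] [Field K] [Fintype K] [DecidableEq K]
  [Algebra F K]

/-- powers of `(a, 0)` -/
lemma li (a : K) (ha : a ≠ 0) {n : ℕ} (hd : (minpoly F a).natDegree = n) :
    LinearIndependent F fun i : Fin (n + 1) => ((a, 0) : K × F) ^ (i : ℕ) := by
  rw [Fintype.linearIndependent_iff]
  intro g hg
  have h1 := congrArg Prod.fst hg
  have h2 := congrArg Prod.snd hg
  rw [Prod.fst_sum] at h1
  rw [Prod.snd_sum] at h2
  rw [Fin.sum_univ_succ] at h1 h2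
  have g0 : g 0 = 0 := by simpa using h2
  have hli := linearIndependent_pow (K := F) a
  rw [hd, Fintype.linearIndependent_iff] at hli
  have h4 : a * ∑ i : Fin n, g i.succ • a ^ (i : ℕ) = 0 := by
    rw [g0, zero_smul, Prod.fst_zero, zero_add] at h1
    rw [mul_sum, ← h1]
    refine Finset.sum_congr rfl fun i _ => ?_
    rw [Prod.smul_fst, Prod.pow_fst, Fin.val_succ, pow_succ', mul_smul_comm]
  have h3 := hli (fun i => g i.succ) ((mul_eq_zero.1 h4).resolve_left ha)
  intro i
  exact Fin.cases g0 h3 i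

/-- the quadratic character in extensions of odd degree -/
lemma qext (hodd : Odd (Module.finrank F K)) (w : F) :
    quadraticChar K (algebraMap F K w) = quadraticChar F w := by
  by_cases hw : w = 0
  · subst hw; simp
  have hw' : algebraMap F K w ≠ 0 := by
    rwa [Ne, map_eq_zero]
  by_cases hs : IsSquare w
  · rw [(quadraticChar_one_iff_isSquare hw).2 hs,
      (quadraticChar_one_iff_isSquare hw').2 (hs.map (algebraMap F K))]
  · rw [quadraticChar_neg_one_iff_not_isSquare.2 hs, quadraticChar_neg_one_iff_not_isSquare]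
    rintro ⟨s, hs'⟩
    apply hs
    have hint : IsIntegral F s := Algebra.IsIntegral.isIntegral s
    have hdvd := minpoly.degree_dvd (K := F) hint
    have hle : (minpoly F s).natDegree ≤ 2 := by
      have h1 : minpoly F s ∣ (X ^ 2 - C w : F[X]) := by
        apply minpoly.dvd
        simp [hs', sq]
      have h2 : (X ^ 2 - C w : F[X]) ≠ 0 := (monic_X_pow_sub_C w two_ne_zero).ne_zero
      calc (minpoly F s).natDegree ≤ (X ^ 2 - C w : F[X]).natDegree := natDegree_le_of_dvd h1 h2
        _ = 2 := natDegree_X_pow_sub_C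
    have hpos := minpoly.natDegree_pos hint
    have hone : (minpoly F s).natDegree = 1 := by
      have h3 : (minpoly F s).natDegree ≠ 2 := by
        intro h4
        rw [h4] at hdvd
        exact (Nat.not_even_iff_odd.2 hodd) (even_iff_two_dvd.2 hdvd)
      omega
    rw [minpoly.natDegree_eq_one_iff] at hone
    obtain ⟨r, rfl⟩ := hone
    refine ⟨r, ?_⟩
    apply (algebraMap F K).injective
    rw [hs', map_mul]

/-- the character of `K × F` -/
noncomputable def Y (ψ : MulChar F ℂ) (y : K × F) : ℂ := ((quadraticChar K y.1 : ℤ) : ℂ) * ψ y.2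

lemma Y_mul (ψ : MulChar F ℂ) (y z : K × F) : Y ψ (y * z) = Y ψ y * Y ψ z := by
  unfold Y
  rw [Prod.fst_mul, Prod.snd_mul, map_mul, map_mul]
  push_cast
  ring

lemma Y_alg (hF : ringChar F ≠ 2) (hodd : Odd (Module.finrank F K)) (ψ : MulChar F ℂ) (w : F) :
    Y ψ (algebraMap F (K × F) w) = (qc F * ψ) w := by
  unfold Y
  rw [MulChar.mul_apply]
  have e1 : (algebraMap F (K × F) w).1 = algebraMap F K w := rfl
  have e2 : (algebraMap F (K × F) w).2 = w := rfl
  rw [e1, e2, qext hodd]
  unfold qc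
  rw [MulChar.ringHomComp_apply]
  simp

lemma msumC_eq (ψ : MulChar F ℂ) (a : K) (m : ℕ) :
    msumC (XX ψ a) m = ∑ c : Fin m → F, Y ψ (((a, 0) : K × F) ^ m + TT ((a, 0) : K × F) m c) := by
  unfold msumC
  refine Finset.sum_congr rfl fun c _ => ?_
  unfold XX Y
  change ((quadraticChar K (aeval a (mon m c)) : ℤ) : ℂ) * ψ ((mon m c).coeff 0) = _
  have e1 : aeval a (mon m c) = (((a, 0) : K × F) ^ m + TT ((a, 0) : K × F) m c).1 := by
    unfold mon TT
    rw [Prod.fst_add, Prod.fst_sum, map_add, map_sum, map_pow, aeval_X, Prod.pow_fst]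
    congr 1
    refine Finset.sum_congr rfl fun l _ => ?_
    rw [map_mul, map_pow, aeval_X, aeval_C]
    rfl
  have e2 : (mon m c).coeff 0 = (((a, 0) : K × F) ^ m + TT ((a, 0) : K × F) m c).2 := by
    rw [coeff_zero_eq_eval_zero]
    unfold mon TT
    rw [Prod.snd_add, Prod.snd_sum, eval_add, eval_finsetSum, eval_pow, eval_X, Prod.pow_snd]
    congr 1
    refine Finset.sum_congr rfl fun l _ => ?_
    rw [eval_mul, eval_pow, eval_X, eval_C]
    rfl
  rw [e1, e2]

/-- the sums of the character over translates of the span of the first powers -/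
lemma sum_TT (hF : ringChar F ≠ 2) (hodd : Odd (Module.finrank F K)) (ψ : MulChar F ℂ)
    (hψ : qc F * ψ ≠ 1) (a : K) (i : ℕ) (w : F) :
    ∑ c : Fin i → F, Y ψ (TT ((a, 0) : K × F) i c + algebraMap F (K × F) w * ((a, 0) : K × F) ^ i) =
      (qc F * ψ) w * msumC (XX ψ a) i := by
  by_cases hw : w = 0
  · subst hw
    rw [map_zero, MulChar.map_zero, zero_mul (msumC (XX ψ a) i)]
    obtain ⟨t, ht⟩ := MulChar.ne_one_iff.1 hψ
    have ht0 : (t : F) ≠ 0 := t.ne_zero
    have h1 : ∑ c : Fin i → F, Y ψ (TT ((a, 0) : K × F) i c + 0 * ((a, 0) : K × F) ^ i) =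
        ∑ c : Fin i → F, Y ψ (TT ((a, 0) : K × F) i (fun l => (t : F) * c l) + 0 * ((a, 0) : K × F) ^ i) := by
      symm
      refine Fintype.sum_equiv (Equiv.piCongrRight fun _ => Equiv.mulLeft₀ (t : F) ht0) _ _ fun c => ?_
      rfl
    have h2 : ∑ c : Fin i → F, Y ψ (TT ((a, 0) : K × F) i (fun l => (t : F) * c l) + 0 * ((a, 0) : K × F) ^ i) =
        (qc F * ψ) t * ∑ c : Fin i → F, Y ψ (TT ((a, 0) : K × F) i c + 0 * ((a, 0) : K × F) ^ i) := by
      rw [Finset.mul_sum]
      refine Finset.sum_congr rfl fun c _ => ?_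
      rw [zero_mul, add_zero, add_zero, TT_smul, Y_mul, Y_alg hF hodd]
    rw [h2] at h1
    have h3 : (1 - (qc F * ψ) t) * ∑ c : Fin i → F, Y ψ (TT ((a, 0) : K × F) i c + 0 * ((a, 0) : K × F) ^ i) = 0 := by
      rw [sub_mul, one_mul, ← h1, sub_self]
    rcases mul_eq_zero.1 h3 with h4 | h4
    · exact absurd (sub_eq_zero.1 h4).symm ht
    · exact h4
  · have h1 : ∑ c : Fin i → F, Y ψ (TT ((a, 0) : K × F) i c + algebraMap F (K × F) w * ((a, 0) : K × F) ^ i) =
        ∑ c : Fin i → F, Y ψ (TT ((a, 0) : K × F) i (fun l => w * c l) + algebraMap F (K × F) w * ((a, 0) : K × F) ^ i) := by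
      symm
      refine Fintype.sum_equiv (Equiv.piCongrRight fun _ => Equiv.mulLeft₀ w hw) _ _ fun c => ?_
      rfl
    rw [h1, msumC_eq, Finset.mul_sum]
    refine Finset.sum_congr rfl fun c _ => ?_
    rw [TT_smul, ← mul_add, Y_mul, Y_alg hF hodd, add_comm]

lemma sum_snoc (i : ℕ) (f : (Fin (i + 1) → F) → ℂ) :
    ∑ u, f u = ∑ w : F, ∑ c : Fin i → F, f (Fin.snoc c w : Fin (i + 1) → F) := by
  rw [← Fintype.sum_prod_type']
  symm
  exact Fintype.sum_equiv (Fin.snocEquiv fun _ => F) _ _ fun _ => rfl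

/-- the translation formula of the Gauss sum, for all `z` -/
lemma step1 (hK : ringChar K ≠ 2) (ψ : MulChar F ℂ) (hψ : ψ ≠ 1) (θ : AddChar F ℂ)
    (lam : K × F →ₗ[F] F) (z : K × F) :
    Y ψ⁻¹ z * ∑ y : K × F, Y ψ y * θ (lam y) = ∑ y : K × F, Y ψ y * θ (lam (y * z)) := by
  by_cases h1 : z.1 = 0
  · have e0 : Y ψ⁻¹ z = 0 := by
      unfold Y
      rw [h1, MulChar.map_zero, Int.cast_zero, zero_mul]
    rw [e0, zero_mul, Fintype.sum_prod_type_right]
    symm
    refine Finset.sum_eq_zero fun y2 _ => ?_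
    have e : ∀ y1 : K, Y ψ (y1, y2) * θ (lam ((y1, y2) * z)) =
        ((quadraticChar K y1 : ℤ) : ℂ) * (ψ y2 * θ (lam (0, y2 * z.2))) := by
      intro y1
      have : ((y1, y2) : K × F) * z = (0, y2 * z.2) := Prod.ext (by simp [h1]) (by simp)
      rw [this]
      unfold Y
      ring
    rw [Finset.sum_congr rfl fun y1 _ => e y1, ← Finset.sum_mul, ← Int.cast_sum,
      quadraticChar_sum_zero hK, Int.cast_zero, zero_mul]
  by_cases h2 : z.2 = 0
  · have e0 : Y ψ⁻¹ z = 0 := by
      unfold Y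
      rw [h2, MulChar.map_zero, mul_zero]
    rw [e0, zero_mul, Fintype.sum_prod_type]
    symm
    refine Finset.sum_eq_zero fun y1 _ => ?_
    have e : ∀ y2 : F, Y ψ (y1, y2) * θ (lam ((y1, y2) * z)) =
        ψ y2 * (((quadraticChar K y1 : ℤ) : ℂ) * θ (lam (y1 * z.1, 0))) := by
      intro y2
      have : ((y1, y2) : K × F) * z = (y1 * z.1, 0) := Prod.ext (by simp) (by simp [h2])
      rw [this]
      unfold Y
      ring
    rw [Finset.sum_congr rfl fun y2 _ => e y2, ← Finset.sum_mul,
      MulChar.sum_eq_zero_of_ne_one hψ, zero_mul]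
  · have hu : z * (z.1⁻¹, z.2⁻¹) = 1 := Prod.ext (by simp [h1]) (by simp [h2])
    let u : (K × F)ˣ := ⟨z, (z.1⁻¹, z.2⁻¹), hu, by rw [mul_comm]; exact hu⟩
    have e : ∑ y : K × F, Y ψ y * θ (lam y) = ∑ y : K × F, Y ψ (y * z) * θ (lam (y * z)) := by
      symm
      refine Fintype.sum_equiv (Units.mulRight u) _ _ fun y => ?_
      rfl
    rw [e, Finset.mul_sum]
    refine Finset.sum_congr rfl fun y _ => ?_
    rw [Y_mul]
    have h3 : Y ψ⁻¹ z * Y ψ z = 1 := by
      unfold Y
      have a1 : ((quadraticChar K z.1 : ℤ) : ℂ) * ((quadraticChar K z.1 : ℤ) : ℂ) = 1 := by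
        rw [← Int.cast_mul, ← sq, quadraticChar_sq_one h1, Int.cast_one]
      have a2 : ψ⁻¹ z.2 * ψ z.2 = 1 := by
        rw [← MulChar.mul_apply, inv_mul_cancel, MulChar.one_apply (isUnit_iff_ne_zero.2 h2)]
      calc _ = (((quadraticChar K z.1 : ℤ) : ℂ) * ((quadraticChar K z.1 : ℤ) : ℂ)) * (ψ⁻¹ z.2 * ψ z.2) := by
            ring
        _ = 1 := by rw [a1, a2, one_mul]
    calc Y ψ⁻¹ z * (Y ψ y * Y ψ z * θ (lam (y * z)))
        = (Y ψ⁻¹ z * Y ψ z) * (Y ψ y * θ (lam (y * z))) := by ring
      _ = _ := by rw [h3, one_mul]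

/-- the main identity -/
lemma main (hF : ringChar F ≠ 2) (hodd : Odd (Module.finrank F K)) (a : K) {n : ℕ}
    (ψ : MulChar F ℂ) (hψ1 : ψ ≠ 1) (hψ2 : qc F * ψ ≠ 1)
    (lam : K × F →ₗ[F] F) (h0 : ∀ m < n, lam (((a, 0) : K × F) ^ m) = 0)
    (h1 : lam (((a, 0) : K × F) ^ n) = 1)
    (hy : ∀ y : K × F, ∃ w : Fin (n + 1) → F, y = TT ((a, 0) : K × F) (n + 1) w)
    (hinj : ∀ i ≤ n, Function.Injective (TT (F := F) ((a, 0) : K × F) (i + 1)))
    (θ : AddChar F ℂ) (hθ : θ.IsPrimitive) {i j : ℕ} (hij : i + j = n) :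
    (∑ y : K × F, Y ψ y * θ (lam y)) * msumC (XX ψ⁻¹ a) j =
      (Fintype.card F : ℂ) ^ j * (∑ w : F, (qc F * ψ) w * θ w) * msumC (XX ψ a) i := by
  classical
  have hK : ringChar K ≠ 2 := by
    have : ringChar K = ringChar F := by
      have h1F := ringChar.charP F
      have h2K := ringChar.charP K
      have h3K : CharP K (ringChar F) := charP_of_injective_algebraMap (algebraMap F K).injective _
      exact ringChar.eq K (ringChar F)
    rwa [this]
  have step2 : (∑ y : K × F, Y ψ y * θ (lam y)) * msumC (XX ψ⁻¹ a) j =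
      ∑ y : K × F, Y ψ y * (θ (lam (y * ((a, 0) : K × F) ^ j)) *
        ∑ c : Fin j → F, ∏ k : Fin j, θ (c k * lam (y * ((a, 0) : K × F) ^ (k : ℕ)))) := by
    rw [msumC_eq, Finset.mul_sum]
    have e : ∀ c : Fin j → F, (∑ y : K × F, Y ψ y * θ (lam y)) *
        Y ψ⁻¹ (((a, 0) : K × F) ^ j + TT ((a, 0) : K × F) j c) =
        ∑ y : K × F, Y ψ y * (θ (lam (y * ((a, 0) : K × F) ^ j)) *
          ∏ k : Fin j, θ (c k * lam (y * ((a, 0) : K × F) ^ (k : ℕ)))) := by
      intro c
      rw [mul_comm, step1 hK ψ hψ1 θ lam]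
      refine Finset.sum_congr rfl fun y _ => ?_
      congr 1
      rw [mul_add, map_add, AddChar.map_add_eq_mul]
      congr 1
      unfold TT
      rw [Finset.mul_sum, map_sum]
      have : ∀ s : Finset (Fin j), θ (∑ k ∈ s, lam (y * (algebraMap F (K × F) (c k) * ((a, 0) : K × F) ^ (k : ℕ)))) =
          ∏ k ∈ s, θ (c k * lam (y * ((a, 0) : K × F) ^ (k : ℕ))) := by
        intro s
        induction s using Finset.induction_on with
        | empty => simp
        | insert k s hk ih =>
          rw [Finset.sum_insert hk, Finset.prod_insert hk, AddChar.map_add_eq_mul, ih]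
          congr 2
          have : y * (algebraMap F (K × F) (c k) * ((a, 0) : K × F) ^ (k : ℕ)) =
              c k • (y * ((a, 0) : K × F) ^ (k : ℕ)) := by
            rw [Algebra.smul_def]
            ring
          rw [this, map_smul, smul_eq_mul]
      exact this Finset.univ
    rw [Finset.sum_congr rfl fun c _ => e c, Finset.sum_comm]
    refine Finset.sum_congr rfl fun y _ => ?_
    rw [← Finset.mul_sum, ← Finset.mul_sum]
  have step3 : ∀ b : Fin j → F, ∑ c : Fin j → F, ∏ k : Fin j, θ (c k * b k) =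
      if ∀ k, b k = 0 then (Fintype.card F : ℂ) ^ j else 0 := by
    intro b
    have e1 := Finset.prod_univ_sum (fun _ : Fin j => (Finset.univ : Finset F))
      (fun (k : Fin j) (x : F) => θ (x * b k))
    rw [Fintype.piFinset_univ] at e1
    rw [← e1]
    have e2 : ∀ k : Fin j, ∑ x : F, θ (x * b k) =
        if b k = 0 then (Fintype.card F : ℂ) else 0 := by
      intro k
      rw [AddChar.sum_mulShift (b k) hθ]
      split_ifs <;> simp
    rw [Finset.prod_congr rfl fun k _ => e2 k, Finset.prod_ite_zero]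
    simp
  rw [step2]
  have step4 : ∑ y : K × F, Y ψ y * (θ (lam (y * ((a, 0) : K × F) ^ j)) *
        ∑ c : Fin j → F, ∏ k : Fin j, θ (c k * lam (y * ((a, 0) : K × F) ^ (k : ℕ)))) =
      ∑ y ∈ Finset.univ.filter (fun y : K × F => ∀ k : Fin j, lam (y * ((a, 0) : K × F) ^ (k : ℕ)) = 0),
        Y ψ y * (θ (lam (y * ((a, 0) : K × F) ^ j)) * (Fintype.card F : ℂ) ^ j) := by
    rw [Finset.sum_filter]
    refine Finset.sum_congr rfl fun y _ => ?_
    rw [step3]
    split_ifs with h
    · rfl
    · simp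
  have step5 : Finset.univ.filter (fun y : K × F => ∀ k : Fin j, lam (y * ((a, 0) : K × F) ^ (k : ℕ)) = 0) =
      Finset.univ.image (TT (F := F) ((a, 0) : K × F) (i + 1)) := by
    ext y
    simp only [Finset.mem_filter, Finset.mem_univ, true_and, Finset.mem_image]
    exact ann lam _ h0 h1 hy hij y
  rw [step4, step5, Finset.sum_image (by
    intro x _ y _ h
    exact hinj i (by omega) h)]
  have step6 : ∀ u : Fin (i + 1) → F, lam (TT ((a, 0) : K × F) (i + 1) u * ((a, 0) : K × F) ^ j) =
      u (Fin.last i) := by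
    intro u
    rw [lam_TT lam _ h0 h1 hij.le u, if_pos hij]
  simp_rw [step6]
  rw [sum_snoc]
  have step7 : ∀ w : F, ∑ c : Fin i → F, Y ψ (TT ((a, 0) : K × F) (i + 1) (Fin.snoc c w : Fin (i + 1) → F)) *
      (θ ((Fin.snoc c w : Fin (i + 1) → F) (Fin.last i)) * (Fintype.card F : ℂ) ^ j) =
      (Fintype.card F : ℂ) ^ j * ((qc F * ψ) w * θ w) * msumC (XX ψ a) i := by
    intro w
    have h := sum_TT hF hodd ψ hψ2 a i w
    calc _ = ∑ c : Fin i → F, Y ψ (TT ((a, 0) : K × F) i c + algebraMap F (K × F) w * ((a, 0) : K × F) ^ i) *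
          (θ w * (Fintype.card F : ℂ) ^ j) := by
          refine Finset.sum_congr rfl fun c _ => ?_
          rw [TT_snoc]
          simp
      _ = _ := by
          rw [← Finset.sum_mul, h]
          ring
  rw [Finset.sum_congr rfl fun w _ => step7 w, ← Finset.sum_mul, ← Finset.mul_sum]

end

end Pool.Agent.Work.ES.FECb

namespace Pool.Agent.Work.ES

open Finset Polynomial

theorem stmt_FEC : Stmt_FEC := by
  intro F K _ _ _ _ _ _ _ hF hodd a ha0 ha ψ hψ1 hψ2 i j hij
  classical
  set n := Module.finrank F K with hn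
  have hfd : FiniteDimensional F K := Module.Finite.of_finite
  have hfin : Module.finrank F (K × F) = n + 1 := by
    rw [Module.finrank_prod, Module.finrank_self]
  obtain ⟨lam, h0, h1, hy, hinj⟩ := FECb.exists_lam (F := F) ((a, 0) : K × F) hfin (FECb.li a ha0 ha)
  set θ := AddChar.FiniteField.primitiveChar_to_Complex F
  have hθ : θ.IsPrimitive := AddChar.FiniteField.primitiveChar_to_Complex_isPrimitive F
  have hm := fun (i j : ℕ) (hij : i + j = n) =>
    FECb.main hF hodd a ψ hψ1 hψ2 lam h0 h1 hy hinj θ hθ (i := i) (j := j) hij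
  have e1 := hm i j hij
  have e0 := hm n 0 rfl
  have hb0 : msumC (XX ψ⁻¹ a) 0 = 1 := by
    rw [FECb.msumC_eq]
    unfold FECb.TT FECb.Y
    simp
  rw [hb0, mul_one, pow_zero, one_mul] at e0
  -- the Gauss sum is not zero
  have hGF : ∑ w : F, (qc F * ψ) w * θ w ≠ 0 := by
    intro h
    have hg := gaussSum_mul_gaussSum_eq_card hψ2 hθ
    have hgs : gaussSum (qc F * ψ) θ = ∑ w : F, (qc F * ψ) w * θ w := rfl
    rw [hgs, h, zero_mul] at hg
    have h7 : (Fintype.card F : ℂ) ≠ 0 := by
      exact_mod_cast Fintype.card_ne_zero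
    exact h7 hg.symm
  rw [e0] at e1
  rw [hij]
  apply mul_left_cancel₀ hGF
  rw [← mul_assoc, e1]
  ring

end Pool.Agent.Work.ES
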